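import Pool.Agent.Helper1.RK.StD

/-!
# Project RK, module ULT: no parametric solutions of bounded degree for almost all parameters
-/

set_option autoImplicit false

namespace Pool.Agent.Helper82.RK

open Pool.Agent.Helper1.RK

private theorem cnt (r : ℕ) : Countable (MvPolynomial (Fin r) ℚ) := by
  have h1 := MvPolynomial.cardinalMk_le_max (σ := Fin r) (R := ℚ)
  rw [← Cardinal.mk_le_aleph0_iff]
  refine h1.trans ?_
  refine max_le (max_le ?_ ?_) le_rfl
  · simp
  · simp

theorem pULT (h1 : StULA) (h2 : StT4) : StULT := by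
  intro r N hr
  by_contra hcon
  push Not at hcon
  have hc : Countable {P : MvPolynomial (Fin r) ℚ // P ≠ 0} := by
    have := cnt r
    exact Subtype.countable
  have hne : Nonempty {P : MvPolynomial (Fin r) ℚ // P ≠ 0} := ⟨⟨1, one_ne_zero⟩⟩
  obtain ⟨P, hP⟩ := exists_surjective_nat {P : MvPolynomial (Fin r) ℚ // P ≠ 0}
  have hQ : ∀ m : ℕ, ∏ n ∈ Finset.range (m + 1), (P n).1 ≠ 0 := by
    intro m
    exact Finset.prod_ne_zero_iff.mpr (fun n _ => (P n).2)
  choose lam hlam u hu1 hu2 hu3 hu4 using fun m => hcon _ (hQ m)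
  have hev : ∀ n m : ℕ, n ≤ m → MvPolynomial.aeval (lam m) (P n).1 ≠ 0 := by
    intro n m hnm h0
    apply hlam m
    rw [map_prod]
    exact Finset.prod_eq_zero (Finset.mem_range.mpr (by omega)) h0
  obtain ⟨L, iF, iC, iA, Φ, v, hΦ, hleg, hsq, i, hi⟩ := h1 r N lam u hu1 hu2 hu3 hu4
  have hae : ∀ p : MvPolynomial (Fin r) ℚ,
      MvPolynomial.aeval (fun i => Φ fun m => lam m i) p =
        Φ (fun m => MvPolynomial.aeval (lam m) p) := by
    intro p
    have h3 : ((MvPolynomial.aeval (fun i => Φ fun m => lam m i) :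
        MvPolynomial (Fin r) ℚ →ₐ[ℚ] L) : MvPolynomial (Fin r) ℚ →+* L) =
        Φ.comp (RingHom.pi (fun m => ((MvPolynomial.aeval (lam m) :
          MvPolynomial (Fin r) ℚ →ₐ[ℚ] ℂ) : MvPolynomial (Fin r) ℚ →+* ℂ))) := by
      apply MvPolynomial.ringHom_ext'
      · exact Subsingleton.elim _ _
      · intro j
        rw [RingHom.coe_coe, MvPolynomial.aeval_X, RingHom.comp_apply]
        apply congrArg Φ
        funext m
        exact (MvPolynomial.aeval_X (lam m) j).symm
    exact congrArg (fun g : MvPolynomial (Fin r) ℚ →+* L => g p) h3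
  have hind : AlgebraicIndependent ℚ (fun i => Φ fun m => lam m i) := by
    rw [algebraicIndependent_iff]
    intro p hp
    by_contra hp0
    obtain ⟨n, hn⟩ := hP ⟨p, hp0⟩
    rw [hae] at hp
    refine hΦ _ ⟨n, fun m hm => ?_⟩ hp
    have h3 := hev n m hm
    rw [hn] at h3
    exact h3
  exact hi (h2 L r (fun i => Φ fun m => lam m i) v hr hind hleg hsq i)

end Pool.Agent.Helper82.RK
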