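import Pool.Agent.Helper1.RK.StE

/-!
# Project RK (MP_de00bc_nt), part E: EMC
-/

set_option autoImplicit false

namespace Pool.Agent.Helper82.RK

open Pool.Agent.Helper1.RK

/-- the total degree of a nonzero partial derivative is smaller -/
theorem totalDegree_pderiv_lt {F : Type} [Field F] {I : Type} (i : I) (Q : MvPolynomial I F)
    (h : MvPolynomial.pderiv i Q ≠ 0) :
    (MvPolynomial.pderiv i Q).totalDegree < Q.totalDegree := by
  obtain ⟨m, hm, hdeg⟩ : ∃ m ∈ (MvPolynomial.pderiv i Q).support,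
      (MvPolynomial.pderiv i Q).totalDegree = m.sum fun _ e => e := by
    have hne : (MvPolynomial.pderiv i Q).support.Nonempty :=
      Finset.nonempty_iff_ne_empty.2 (fun h0 => h (MvPolynomial.support_eq_empty.1 h0))
    obtain ⟨m, hm, hm2⟩ := Finset.exists_mem_eq_sup _ hne (fun s : I →₀ ℕ => s.sum fun _ e => e)
    exact ⟨m, hm, hm2⟩
  rw [hdeg]
  have hc : MvPolynomial.coeff m (MvPolynomial.pderiv i Q) ≠ 0 := MvPolynomial.mem_support_iff.1 hm
  rw [MvPolynomial.coeff_pderiv] at hc
  have hc2 : MvPolynomial.coeff (m + Finsupp.single i 1) Q ≠ 0 := left_ne_zero_of_mul hc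
  have hle := MvPolynomial.le_totalDegree (MvPolynomial.mem_support_iff.2 hc2)
  have hs : (m + Finsupp.single i 1).sum (fun _ e => e) = m.sum (fun _ e => e) + 1 := by
    rw [Finsupp.sum_add_index' (fun _ => rfl) (fun _ _ _ => rfl), Finsupp.sum_single_index rfl]
  omega

/-- in characteristic zero a polynomial with all partial derivatives zero is constant -/
theorem const_of_pderiv {F : Type} [Field F] [CharZero F] {I : Type} (Q : MvPolynomial I F)
    (h : ∀ i, MvPolynomial.pderiv i Q = 0) : Q = MvPolynomial.C (MvPolynomial.coeff 0 Q) := by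
  classical
  ext m
  rw [MvPolynomial.coeff_C]
  split_ifs with h0
  · rw [← h0]
  · obtain ⟨i, hi⟩ : ∃ i, m i ≠ 0 := by
      by_contra hcon
      push Not at hcon
      exact h0 (by ext i; simp [hcon i])
    have h1 : m - Finsupp.single i 1 + Finsupp.single i 1 = m := by
      apply tsub_add_cancel_of_le
      rw [Finsupp.single_le_iff]
      omega
    have h2 := MvPolynomial.coeff_pderiv (i := i) Q (m - Finsupp.single i 1)
    rw [h i, h1, MvPolynomial.coeff_zero] at h2
    have h3 : (((m - Finsupp.single i 1 : I →₀ ℕ) i : ℕ) : F) + 1 ≠ 0 := Nat.cast_add_one_ne_zero _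
    exact (mul_eq_zero.1 h2.symm).resolve_right h3

theorem pEMC : StEMC := by
  intro F _ _ I P Q hQ h
  obtain ⟨Q', P', g, hrel, hQ', hP'⟩ :=
    UniqueFactorizationMonoid.exists_reduced_factors Q hQ P
  have hg : g ≠ 0 := by
    rintro rfl
    exact hQ (by rw [← hQ', zero_mul])
  have hQ0 : Q' ≠ 0 := by
    rintro rfl
    exact hQ (by rw [← hQ', mul_zero])
  have hkey : ∀ i, MvPolynomial.pderiv i P' * Q' = P' * MvPolynomial.pderiv i Q' := by
    intro i
    have h1 := h i
    rw [← hQ', ← hP', MvPolynomial.pderiv_mul, MvPolynomial.pderiv_mul] at h1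
    have h2 : g ^ 2 * (MvPolynomial.pderiv i P' * Q') = g ^ 2 * (P' * MvPolynomial.pderiv i Q') := by
      linear_combination h1
    exact mul_left_cancel₀ (pow_ne_zero 2 hg) h2
  have hQd : ∀ i, MvPolynomial.pderiv i Q' = 0 := by
    intro i
    by_contra hne
    have hd : Q' ∣ P' * MvPolynomial.pderiv i Q' := ⟨MvPolynomial.pderiv i P', by
      rw [← hkey i, mul_comm]⟩
    have hd2 : Q' ∣ MvPolynomial.pderiv i Q' := hrel.dvd_of_dvd_mul_left hd
    have h3 := MvPolynomial.totalDegree_le_of_dvd_of_isDomain hd2 hne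
    have h4 := totalDegree_pderiv_lt i Q' hne
    omega
  have hPd : ∀ i, MvPolynomial.pderiv i P' = 0 := by
    intro i
    have h1 := hkey i
    rw [hQd i, mul_zero] at h1
    exact (mul_eq_zero.1 h1).resolve_right hQ0
  have eQ := const_of_pderiv Q' hQd
  have eP := const_of_pderiv P' hPd
  set q := MvPolynomial.coeff 0 Q' with hq
  set p := MvPolynomial.coeff 0 P' with hp
  have hq0 : q ≠ 0 := by
    intro h0
    rw [h0, map_zero] at eQ
    exact hQ0 eQ
  refine ⟨p / q, ?_⟩
  rw [← hP', ← hQ', eP, eQ]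
  have h5 : (MvPolynomial.C p : MvPolynomial I F) = MvPolynomial.C (p / q) * MvPolynomial.C q := by
    rw [← map_mul, div_mul_cancel₀ p hq0]
  rw [h5]
  ring

end Pool.Agent.Helper82.RK
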