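import Pool.Agent.Helper1.RK.StF

/-!
Project RK, part F, module EXI: exactness, from the Picard-Fuchs equation.
-/

set_option autoImplicit false

namespace Pool.Agent.Helper82.RK

open Polynomial Pool.Agent.Helper1.RK

section alg

variable {M : Type} [Field M] [CharZero M]

/-- the polynomial identity -/
theorem exi_id (J x : M) (hJ : J ≠ 0) (hJ2 : 4 * J + 27 ≠ 0) :
    -(x + 1) / 2 = ((-(2 * J + 9) / (J * (4 * J + 27))) / 2 + (-(-3 / (J * (4 * J + 27))) / 2) * x +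
      (2 * (-3 / (J * (4 * J + 27))) * x + -(2 * J + 9) / (J * (4 * J + 27)))) *
      (x ^ 3 + J * x + J) -
      (-3 / (J * (4 * J + 27)) * x ^ 2 + -(2 * J + 9) / (J * (4 * J + 27)) * x +
        -2 / (4 * J + 27)) * (3 * x ^ 2 + J) / 2 := by
  obtain ⟨D, hD⟩ : ∃ D : M, D = 4 * J + 27 := ⟨_, rfl⟩
  rw [← hD] at hJ2 ⊢
  field_simp
  rw [hD]
  ring

/-- the identity in quotient form -/
theorem exi_id' (J x p2 p1 p0 : M) (hJ : J ≠ 0) (hJ2 : 4 * J + 27 ≠ 0)
    (h2 : p2 = -3 / (J * (4 * J + 27))) (h1 : p1 = -(2 * J + 9) / (J * (4 * J + 27)))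
    (h0 : p0 = -2 / (4 * J + 27)) (hx : x ^ 3 + J * x + J ≠ 0) :
    (2 * p2 * x + p1) - (p2 * x ^ 2 + p1 * x + p0) * (3 * x ^ 2 + J) / (2 * (x ^ 3 + J * x + J)) +
      (x + 1) / (2 * (x ^ 3 + J * x + J)) = -(p1 / 2 + -p2 / 2 * x) := by
  have h := exi_id J x hJ hJ2
  rw [← h2, ← h1, ← h0] at h
  generalize hF : x ^ 3 + J * x + J = F at h hx
  have h3 : (2 * p2 * x + p1) - (p2 * x ^ 2 + p1 * x + p0) * (3 * x ^ 2 + J) / (2 * F) +
      (x + 1) / (2 * F) = ((2 * p2 * x + p1) * F - (p2 * x ^ 2 + p1 * x + p0) * (3 * x ^ 2 + J) / 2 +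
        (x + 1) / 2) / F := by
    field_simp
  rw [h3, div_eq_iff hx]
  linear_combination -h

theorem exi_alg (X J w u v Γ Γ' vt ut f g p2 p1 p0 T DT Z DZ : M)
    (hf : f = X ^ 3 + J * X + J) (hg : g = w ^ 3 + J * w + J)
    (hR : v ^ 2 * f = Γ * g) (hf0 : f ≠ 0) (hv : v ≠ 0) (hJ : J ≠ 0)
    (hJ2 : 4 * J + 27 ≠ 0)
    (h2 : p2 = -3 / (J * (4 * J + 27))) (h1 : p1 = -(2 * J + 9) / (J * (4 * J + 27)))
    (h0 : p0 = -2 / (4 * J + 27))
    (e1 : 2 * v * vt * f + v ^ 2 * (3 * X ^ 2 + J) = Γ * ((3 * w ^ 2 + J) * v))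
    (e2 : 2 * v * ut * f + v ^ 2 * (X + 1) = Γ' * g + Γ * ((3 * w ^ 2 + J) * u + w + 1))
    (hT : T * f = Z) (hDT : DT * f + T * (3 * X ^ 2 + J) = DZ)
    (hZ : Z * v = (p2 * X ^ 2 + p1 * X + p0) * v - (p2 * w ^ 2 + p1 * w + p0 + u))
    (hDZ : DZ * v + Z * vt = (2 * p2 * X + p1) * v + (p2 * X ^ 2 + p1 * X + p0) * vt -
      ((2 * p2 * w + p1) * v + ut)) :
    DT * f + T * (3 * X ^ 2 + J) / 2 = -p2 / 2 * (w - X) - Γ' / (2 * Γ) := by
  have hg0 : g ≠ 0 := by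
    rintro rfl
    rw [mul_zero] at hR
    exact mul_ne_zero (pow_ne_zero 2 hv) hf0 hR
  have hvt : vt = (Γ * (3 * w ^ 2 + J) - v * (3 * X ^ 2 + J)) / (2 * f) := by
    rw [eq_div_iff (by simpa using hf0)]
    apply mul_left_cancel₀ hv
    linear_combination e1
  have hut : ut = (Γ' * g + Γ * ((3 * w ^ 2 + J) * u + w + 1) - v ^ 2 * (X + 1)) /
      (2 * v * f) := by
    rw [eq_div_iff (by simp [hf0, hv])]
    linear_combination e2
  have hTv : T = Z / f := by rw [eq_div_iff hf0, hT]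
  have hZv : Z = (p2 * X ^ 2 + p1 * X + p0) - (p2 * w ^ 2 + p1 * w + p0 + u) / v := by
    apply mul_right_cancel₀ hv
    rw [hZ, sub_mul, div_mul_cancel₀ _ hv]
  have hDZv : DZ = (2 * p2 * X + p1) - (2 * p2 * w + p1) - ut / v +
      (p2 * w ^ 2 + p1 * w + p0 + u) * vt / v ^ 2 := by
    apply mul_right_cancel₀ hv
    have h3 : DZ * v = (2 * p2 * X + p1) * v + (p2 * X ^ 2 + p1 * X + p0) * vt -
      ((2 * p2 * w + p1) * v + ut) - Z * vt := by linear_combination hDZ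
    rw [h3, hZv]
    field_simp
    ring
  have hX := exi_id' J X p2 p1 p0 hJ hJ2 h2 h1 h0 (by rw [← hf]; exact hf0)
  have hw := exi_id' J w p2 p1 p0 hJ hJ2 h2 h1 h0 (by rw [← hg]; exact hg0)
  rw [← hf] at hX
  rw [← hg] at hw
  have hΓg : Γ = v ^ 2 * f / g := by rw [eq_div_iff hg0, hR]
  have key : DT * f + T * (3 * X ^ 2 + J) / 2 =
      ((2 * p2 * X + p1) - (p2 * X ^ 2 + p1 * X + p0) * (3 * X ^ 2 + J) / (2 * f) +
        (X + 1) / (2 * f)) -
      ((2 * p2 * w + p1) - (p2 * w ^ 2 + p1 * w + p0) * (3 * w ^ 2 + J) / (2 * g) +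
        (w + 1) / (2 * g)) - Γ' / (2 * Γ) := by
    have h3 : DT * f + T * (3 * X ^ 2 + J) / 2 = DZ - Z / f * (3 * X ^ 2 + J) / 2 := by
      rw [← hDT, ← hTv]
      ring
    rw [h3, hDZv, hut, hvt, hZv, hΓg]
    clear h3 hX hw hΓg hDZv hZv hTv hut hvt e1 e2 hT hDT hZ hDZ hR hf hg h2 h1 h0
    field_simp
    ring
  rw [key, hX, hw]
  ring

end alg

/-- the commutator of two derivations -/
theorem comm_der {L : Type} [Field L] (D E : Derivation ℤ (RatFunc L) (RatFunc L)) :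
    ∃ F : Derivation ℤ (RatFunc L) (RatFunc L), ∀ a, F a = D (E a) - E (D a) := by
  refine ⟨{ toFun := fun a => D (E a) - E (D a)
            map_add' := ?_
            map_smul' := ?_
            map_one_eq_zero' := ?_
            leibniz' := ?_ }, fun a => rfl⟩
  · intro a b
    simp only [map_add]
    ring
  · intro m a
    have hm : ∀ (D : Derivation ℤ (RatFunc L) (RatFunc L)) (x : RatFunc L),
        D ((m : RatFunc L) * x) = (m : RatFunc L) * D x := by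
      intro D x
      rw [Derivation.leibniz, Derivation.map_intCast, smul_zero, add_zero, smul_eq_mul]
    rw [Algebra.smul_def, eq_intCast, hm, hm, hm, hm, RingHom.id_apply, zsmul_eq_mul]
    ring
  · show D (E 1) - E (D 1) = 0
    simp
  · intro a b
    show D (E (a * b)) - E (D (a * b)) = a * (D (E b) - E (D b)) + b * (D (E a) - E (D a))
    simp only [Derivation.leibniz, map_add, smul_eq_mul]
    ring

theorem pEXI (h1 : StDER) : StEXI := by
  intro L _ _ d Dc Dt j γ w hDc hDt hj hγ hv hR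
  obtain ⟨-, huniq, -, -⟩ := h1 L
  have hj0 : j ≠ 0 := by
    rintro rfl
    rw [map_zero] at hj
    exact zero_ne_one hj
  have hj2 : 4 * j + 27 ≠ 0 := by
    intro h
    have h2 : d (4 * j + 27) = 4 := by
      have h3 : (4 : L) = ((4 : ℤ) : L) := by norm_num
      have h4 : (27 : L) = ((27 : ℤ) : L) := by norm_num
      rw [map_add, Derivation.leibniz, hj, h4, Derivation.map_intCast]
      rw [h3, Derivation.map_intCast]
      simp
    rw [h, map_zero] at h2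
    exact absurd h2.symm (by norm_num)
  have hcomm : Dc (Dt w) = Dt (Dc w) := by
    obtain ⟨F, hF⟩ : ∃ F : Derivation ℤ (RatFunc L) (RatFunc L),
        ∀ a, F a = Dc (Dt a) - Dt (Dc a) := by
      exact comm_der Dc Dt
    have h2 : Over (0 : Derivation ℤ L L) 0 F := by
      constructor
      · intro a
        rw [hF, hDt.1 a, hDc.1 a]
        rw [hDc.1, hDt.1]
        simp
      · rw [hF, hDt.2, hDc.2]
        simp
    have h3 : Over (0 : Derivation ℤ L L) 0 (0 : Derivation ℤ (RatFunc L) (RatFunc L)) := by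
      constructor
      · intro a
        simp
      · simp
    have h4 := huniq 0 0 _ _ h2 h3
    have h5 : F w = 0 := by rw [h4]; simp
    rw [hF] at h5
    exact sub_eq_zero.1 h5
  obtain ⟨J, hJ⟩ : ∃ J : RatFunc L, J = RatFunc.C j := ⟨_, rfl⟩
  obtain ⟨X, hX⟩ : ∃ X : RatFunc L, X = RatFunc.X := ⟨_, rfl⟩
  have hCi : Function.Injective (RatFunc.C : L →+* RatFunc L) := RatFunc.C_injective
  have hJ0 : J ≠ 0 := by
    rw [hJ]
    exact (_root_.map_ne_zero _).2 hj0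
  have hJ2 : 4 * J + 27 ≠ 0 := by
    have h2 : 4 * J + 27 = RatFunc.C (4 * j + 27) := by
      rw [hJ, map_add, map_mul, map_ofNat, map_ofNat]
    rw [h2]
    exact (_root_.map_ne_zero _).2 hj2
  have hΓ : (RatFunc.C γ : RatFunc L) ≠ 0 := (_root_.map_ne_zero _).2 hγ
  have hDtJ : Dt J = 0 := by rw [hJ, hDt.1]; simp
  have hDcJ : Dc J = 1 := by rw [hJ, hDc.1, hj]; simp
  have hDtX : Dt X = 1 := by rw [hX, hDt.2]
  have hDcX : Dc X = 0 := by rw [hX, hDc.2]
  have hDtG : Dt (RatFunc.C γ) = 0 := by rw [hDt.1]; simp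
  have hDcG : Dc (RatFunc.C γ) = RatFunc.C (d γ) := hDc.1 γ
  have hwX : wei j j RatFunc.X = X ^ 3 + J * X + J := by rw [wei, hX, hJ]
  have hww : wei j j w = w ^ 3 + J * w + J := by rw [wei, hJ]
  rw [hwX, hww] at hR
  rw [hwX]
  have hf0 : X ^ 3 + J * X + J ≠ 0 := by
    intro h
    have h2 := congrArg Dt h
    have h3 := congrArg Dt h2
    have h4 := congrArg Dt h3
    have hn : ∀ n : ℕ, Dt (n : RatFunc L) = 0 := fun n => Derivation.map_natCast Dt n
    have hn2 : Dt (2 : RatFunc L) = 0 := by simpa using hn 2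
    have hn3 : Dt (3 : RatFunc L) = 0 := by simpa using hn 3
    simp only [map_add, map_zero, Derivation.leibniz, Derivation.leibniz_pow, hDtJ, hDtX,
      smul_eq_mul, nsmul_eq_mul] at h4
    norm_num [hn2, hn3] at h4
  obtain ⟨p2, hp2⟩ : ∃ p : L, p = -3 / (j * (4 * j + 27)) := ⟨_, rfl⟩
  obtain ⟨p1, hp1⟩ : ∃ p : L, p = -(2 * j + 9) / (j * (4 * j + 27)) := ⟨_, rfl⟩
  obtain ⟨p0, hp0⟩ : ∃ p : L, p = -2 / (4 * j + 27) := ⟨_, rfl⟩
  have hP2 : (RatFunc.C p2 : RatFunc L) = -3 / (J * (4 * J + 27)) := by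
    rw [hp2, hJ]
    simp only [map_div₀, map_neg, map_mul, map_add, map_ofNat]
  have hP1 : (RatFunc.C p1 : RatFunc L) = -(2 * J + 9) / (J * (4 * J + 27)) := by
    rw [hp1, hJ]
    simp only [map_div₀, map_neg, map_mul, map_add, map_ofNat]
  have hP0 : (RatFunc.C p0 : RatFunc L) = -2 / (4 * J + 27) := by
    rw [hp0, hJ]
    simp only [map_div₀, map_neg, map_mul, map_add, map_ofNat]
  have hDt2 : Dt (RatFunc.C p2) = 0 := by rw [hDt.1]; simp
  have hDt1 : Dt (RatFunc.C p1) = 0 := by rw [hDt.1]; simp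
  have hDt0 : Dt (RatFunc.C p0) = 0 := by rw [hDt.1]; simp
  obtain ⟨Z, hZ⟩ : ∃ Z : RatFunc L, Z = (RatFunc.C p2 * X ^ 2 + RatFunc.C p1 * X + RatFunc.C p0) -
    (RatFunc.C p2 * w ^ 2 + RatFunc.C p1 * w + RatFunc.C p0 + Dc w) / Dt w := ⟨_, rfl⟩
  have hZv : Z * Dt w = (RatFunc.C p2 * X ^ 2 + RatFunc.C p1 * X + RatFunc.C p0) * Dt w -
      (RatFunc.C p2 * w ^ 2 + RatFunc.C p1 * w + RatFunc.C p0 + Dc w) := by
    rw [hZ, sub_mul, div_mul_cancel₀ _ hv]
  have hTf : Z / (X ^ 3 + J * X + J) * (X ^ 3 + J * X + J) = Z := div_mul_cancel₀ _ hf0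
  refine ⟨-p2 / 2, d γ / (2 * γ), Z / (X ^ 3 + J * X + J), ?_, ?_⟩
  · rw [hp2]
    apply div_ne_zero _ two_ne_zero
    rw [neg_ne_zero]
    exact div_ne_zero (by norm_num) (mul_ne_zero hj0 hj2)
  · have e1 := congrArg Dt hR
    have e2 := congrArg Dc hR
    have e3 := congrArg Dt hTf
    have e4 := congrArg Dt hZv
    simp only [map_add, map_sub, Derivation.leibniz, Derivation.leibniz_pow, hDtJ, hDtX, hDcJ,
      hDcX, hDtG, hDcG, hDt2, hDt1, hDt0, smul_eq_mul, nsmul_eq_mul, hcomm] at e1 e2 e3 e4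
    have h5 := exi_alg X J w (Dc w) (Dt w) (RatFunc.C γ) (RatFunc.C (d γ)) (Dt (Dt w)) (Dt (Dc w))
      (X ^ 3 + J * X + J) (w ^ 3 + J * w + J) (RatFunc.C p2) (RatFunc.C p1) (RatFunc.C p0)
      (Z / (X ^ 3 + J * X + J)) (Dt (Z / (X ^ 3 + J * X + J))) Z (Dt Z) rfl rfl hR hf0 hv hJ0
      hJ2 hP2 hP1 hP0 ?_ ?_ hTf ?_ hZv ?_
    · rw [← hX, ← hJ, h5]
      simp only [map_div₀, map_neg, map_mul, map_ofNat]
    · push_cast at e1
      linear_combination e1
    · push_cast at e2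
      linear_combination e2
    · push_cast at e3
      linear_combination e3
    · push_cast at e4
      linear_combination e4

end Pool.Agent.Helper82.RK
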